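import Mathlib

/-! # MP_058057_co: the strictness clause of the truncated inequality fails at `n = 7`, `k = 1` -/

set_option autoImplicit false

namespace Pool.Agent.Results.MP_058057_co.StrictnessFails

/-- `Q_0(n)`: the number of partitions of `n` into distinct parts, no part divisible by `4`
(such a partition is the finite set of its parts). -/
def Q0 (n : ℕ) : ℕ :=
  ((Finset.Icc 1 n).powerset.filter fun s => (∀ i ∈ s, ¬ 4 ∣ i) ∧ ∑ i ∈ s, i = n).card

/-- `Q_0` at integers, zero at negative integers. -/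
def Q0Z (m : ℤ) : ℤ := if m < 0 then 0 else (Q0 m.toNat : ℤ)

open Classical in
/-- `ξ_n`: `1` for `n = 0`, `2 (-1)^m` for `n = 4 m^2` with `m ≥ 1`, and `0` otherwise. -/
noncomputable def xi (n : ℕ) : ℤ :=
  if n = 0 then 1
  else if h : ∃ m : ℕ, 1 ≤ m ∧ n = 4 * m ^ 2 then 2 * (-1) ^ h.choose else 0

/-- `S_k(n)`, the sum of the first `2k` terms of the signed sum over triangular numbers. -/
def S (k n : ℕ) : ℤ :=
  ∑ j ∈ Finset.range (2 * k), (-1) ^ (j * (j + 1) / 2) * Q0Z ((n : ℤ) - (j * (j + 1) / 2 : ℕ))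

lemma xi_seven : xi 7 = 0 := by
  have h : ¬ ∃ m : ℕ, 1 ≤ m ∧ 7 = 4 * m ^ 2 := by
    rintro ⟨m, _, hm⟩
    omega
  simp [xi, h]

lemma Q0_six : Q0 6 = 3 := by decide +kernel

lemma Q0_seven : Q0 7 = 3 := by decide +kernel

lemma S_one_seven : S 1 7 = 0 := by
  simp only [S, Finset.sum_range_succ, Finset.sum_range_zero, Q0Z]
  norm_num
  rw [show Int.toNat 7 = 7 from rfl, show Int.toNat 6 = 6 from rfl, Q0_six, Q0_seven]
  norm_num

/-- Q1 is false: the claimed equivalence between strictness and `n ≥ k (2k+1)` fails. More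
precisely, at `k = 1`, `n = 7 ≥ 3` the difference is exactly zero. -/
theorem result :
    ((-1) ^ (1 - 1) * (S 1 7 - xi 7) = 0 ∧ 1 * (2 * 1 + 1) ≤ 7) ∧
    ¬ ∀ n k : ℕ, 1 ≤ k → 0 ≤ (-1) ^ (k - 1) * (S k n - xi n) ∧
      (0 < (-1) ^ (k - 1) * (S k n - xi n) ↔ k * (2 * k + 1) ≤ n) := by
  refine ⟨⟨by rw [S_one_seven, xi_seven]; norm_num, by norm_num⟩, fun h => ?_⟩
  have h1 := (h 7 1 le_rfl).2.mpr (by norm_num)
  rw [S_one_seven, xi_seven] at h1
  norm_num at h1

end Pool.Agent.Results.MP_058057_co.StrictnessFails
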